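import Mathlib

/-!
# Project TU, module I: counting in boxes and Turán's inequality
-/

set_option autoImplicit false
set_option linter.unusedVariables false
set_option linter.unusedSectionVars false

namespace Pool.Agent.L0h19.TU

open Finset

/-- the integers of absolute value at most `X` -/
noncomputable def II (X : ℕ) : Finset ℤ := Icc (-(X : ℤ)) X

open Classical in
lemma cnt1 (X : ℕ) {d : ℕ} (hd : 0 < d) (r : ℤ) :
    |(((II X).filter (fun x : ℤ => x ≡ r [ZMOD d])).card : ℝ) - (2 * X + 1 : ℝ) / d| ≤ 1 := by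
  have h2 : (II X).filter (fun x : ℤ => x ≡ r [ZMOD d]) =
      (Ioc (-(X : ℤ) - 1) X).filter (fun x => x ≡ r [ZMOD d]) := by
    ext x
    unfold II
    rw [mem_filter, mem_filter, mem_Icc, mem_Ioc]
    constructor <;> rintro ⟨⟨h3, h4⟩, h5⟩ <;> exact ⟨⟨by omega, h4⟩, h5⟩
  rw [h2]
  have hd' : (0 : ℤ) < (d : ℤ) := by exact_mod_cast hd
  have h3 := Int.Ioc_filter_modEq_card (-(X : ℤ) - 1) (X : ℤ) hd' r
  have h3' : ((((Ioc (-(X : ℤ) - 1) (X : ℤ)).filter (fun x => x ≡ r [ZMOD d])).card : ℤ)) =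
      max (⌊(((X : ℤ) : ℚ) - r) / ((d : ℤ) : ℚ)⌋ -
        ⌊(((-(X : ℤ) - 1 : ℤ) : ℚ) - r) / ((d : ℤ) : ℚ)⌋) 0 := by
    rw [← h3]
  have hdq : (0 : ℚ) < (d : ℚ) := by exact_mod_cast hd
  have h4 := Int.floor_le (((X : ℚ) - r) / (d : ℚ))
  have h5 := Int.lt_floor_add_one (((X : ℚ) - r) / (d : ℚ))
  have h6 := Int.floor_le ((-(X : ℚ) - 1 - r) / (d : ℚ))
  have h7 := Int.lt_floor_add_one ((-(X : ℚ) - 1 - r) / (d : ℚ))
  have h8 : ((X : ℚ) - r) / d = (2 * X + 1) / d + (-(X : ℚ) - 1 - r) / d := by ring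
  have hY : (0 : ℚ) ≤ (2 * (X : ℚ) + 1) / d := by positivity
  have h9 : |((((Ioc (-(X : ℤ) - 1) (X : ℤ)).filter (fun x => x ≡ r [ZMOD d])).card : ℤ) : ℚ) -
      (2 * X + 1) / d| ≤ 1 := by
    rw [h3']
    push_cast at *
    rw [abs_le]
    rcases le_total ((⌊((X : ℚ) - r) / (d : ℚ)⌋ : ℚ) - (⌊(-(X : ℚ) - 1 - r) / (d : ℚ)⌋ : ℚ)) 0
      with h | h
    · rw [max_eq_right h]
      constructor <;> linarith
    · rw [max_eq_left h]
      constructor <;> linarith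
  rw [Int.cast_natCast] at h9
  have h10 := (Rat.cast_le (K := ℝ)).mpr h9
  rw [Rat.cast_abs] at h10
  push_cast at h10
  exact h10

/-- the number of the points of a box in some residue classes -/
lemma boxcount {σ : Type} [DecidableEq σ] (X : ℕ) {d : ℕ} (hd : 0 < d) (S : Finset σ)
    (r : σ → ℤ × ℤ)
    (hinj : ∀ s ∈ S, ∀ s' ∈ S, (r s).1 ≡ (r s').1 [ZMOD d] → (r s).2 ≡ (r s').2 [ZMOD d] → s = s')
    (A : Finset (ℤ × ℤ)) (hA : ∀ t, t ∈ A ↔ (t.1 ∈ II X ∧ t.2 ∈ II X) ∧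
      ∃ s ∈ S, t.1 ≡ (r s).1 [ZMOD d] ∧ t.2 ≡ (r s).2 [ZMOD d]) :
    |(A.card : ℝ) - S.card * ((2 * X + 1 : ℝ) / d) ^ 2| ≤
      S.card * (2 * ((2 * X + 1 : ℝ) / d) + 1) := by
  classical
  set N : ℝ := (2 * X + 1 : ℝ) / d with hN
  have hN0 : 0 ≤ N := by positivity
  have hAe : A = S.biUnion (fun s => ((II X).filter (fun x : ℤ => x ≡ (r s).1 [ZMOD d])) ×ˢ
      ((II X).filter (fun x : ℤ => x ≡ (r s).2 [ZMOD d]))) := by
    ext t
    rw [hA, mem_biUnion]
    constructor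
    · rintro ⟨⟨h1, h2⟩, s, hs, h3, h4⟩
      exact ⟨s, hs, mem_product.2 ⟨mem_filter.2 ⟨h1, h3⟩, mem_filter.2 ⟨h2, h4⟩⟩⟩
    · rintro ⟨s, hs, h⟩
      rw [mem_product, mem_filter, mem_filter] at h
      exact ⟨⟨h.1.1, h.2.1⟩, s, hs, h.1.2, h.2.2⟩
  have hcard : (A.card : ℝ) = ∑ s ∈ S,
      ((((II X).filter (fun x : ℤ => x ≡ (r s).1 [ZMOD d])).card : ℝ) *
      (((II X).filter (fun x : ℤ => x ≡ (r s).2 [ZMOD d])).card : ℝ)) := by
    rw [hAe, card_biUnion]
    · push_cast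
      refine sum_congr rfl fun s _ => ?_
      rw [card_product]
      push_cast
      rfl
    · intro s hs s' hs' hne
      rw [Function.onFun, Finset.disjoint_left]
      intro t ht ht'
      rw [mem_product, mem_filter, mem_filter] at ht ht'
      exact hne (hinj s hs s' hs' (ht.1.2.symm.trans ht'.1.2) (ht.2.2.symm.trans ht'.2.2))
  have h1 : (A.card : ℝ) - S.card * N ^ 2 = ∑ s ∈ S,
      ((((II X).filter (fun x : ℤ => x ≡ (r s).1 [ZMOD d])).card : ℝ) *
      (((II X).filter (fun x : ℤ => x ≡ (r s).2 [ZMOD d])).card : ℝ) - N ^ 2) := by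
    rw [hcard, sum_sub_distrib, sum_const, nsmul_eq_mul]
  rw [h1]
  refine (abs_sum_le_sum_abs _ _).trans ?_
  have h2 : ∑ s ∈ S, (2 * N + 1) = (S.card : ℝ) * (2 * N + 1) := by
    rw [sum_const, nsmul_eq_mul]
  rw [← h2]
  refine sum_le_sum fun s _ => ?_
  have e1 := abs_le.1 (cnt1 X hd (r s).1)
  have e2 := abs_le.1 (cnt1 X hd (r s).2)
  rw [← hN] at e1 e2
  set a : ℝ := (((II X).filter (fun x : ℤ => x ≡ (r s).1 [ZMOD d])).card : ℝ)
  set b : ℝ := (((II X).filter (fun x : ℤ => x ≡ (r s).2 [ZMOD d])).card : ℝ)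
  have ha : 0 ≤ a := Nat.cast_nonneg _
  have hb : 0 ≤ b := Nat.cast_nonneg _
  have e3 : a * b - N ^ 2 = (a - N) * b + N * (b - N) := by ring
  rw [e3]
  refine (abs_add_le _ _).trans ?_
  rw [abs_mul, abs_mul, abs_of_nonneg hb, abs_of_nonneg hN0]
  have e4 : |a - N| ≤ 1 := abs_le.2 e1
  have e5 : |b - N| ≤ 1 := abs_le.2 e2
  have e6 : |a - N| * b ≤ 1 * b := mul_le_mul_of_nonneg_right e4 hb
  have e7 : N * |b - N| ≤ N * 1 := mul_le_mul_of_nonneg_left e5 hN0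
  linarith [e2.2]

lemma sum_ind {Ω : Type} (T : Finset Ω) (F : Ω → Prop) [DecidablePred F] :
    ∑ t ∈ T, (if F t then (1 : ℝ) else 0) = ((T.filter (fun t => F t)).card : ℝ) := by
  rw [Finset.sum_ite, Finset.sum_const_zero, add_zero, Finset.sum_const, nsmul_eq_mul, mul_one]

/-- Turán's inequality for events which are almost independent in pairs -/
lemma turan {Ω : Type} (T : Finset Ω) (P : Finset ℕ) (E : ℕ → Ω → Prop)
    [∀ p, DecidablePred (E p)] (ρ : ℕ → ℝ) (K : ℝ)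
    (hρ : ∀ p ∈ P, 0 ≤ ρ p ∧ ρ p ≤ 1)
    (h1 : ∀ p ∈ P, |((T.filter (fun t => E p t)).card : ℝ) - T.card * ρ p| ≤ K)
    (h2 : ∀ p ∈ P, ∀ q ∈ P, p ≠ q →
      |((T.filter (fun t => E p t ∧ E q t)).card : ℝ) - T.card * (ρ p * ρ q)| ≤ K) :
    ∑ t ∈ T, (∑ p ∈ P, ((if E p t then (1 : ℝ) else 0) - ρ p)) ^ 2 ≤
      T.card * ∑ p ∈ P, ρ p + 3 * K * (P.card : ℝ) ^ 2 := by
  have g1 : ∑ t ∈ T, (∑ p ∈ P, ((if E p t then (1 : ℝ) else 0) - ρ p)) ^ 2 =
      ∑ p ∈ P, ∑ q ∈ P, ∑ t ∈ T, ((if E p t then (1 : ℝ) else 0) - ρ p) *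
        ((if E q t then (1 : ℝ) else 0) - ρ q) := by
    simp_rw [sq, Finset.sum_mul_sum]
    rw [Finset.sum_comm]
    apply Finset.sum_congr rfl
    intro p _
    rw [Finset.sum_comm]
  rw [g1]
  have g2 : ∀ p ∈ P, ∀ q ∈ P, ∑ t ∈ T, ((if E p t then (1 : ℝ) else 0) - ρ p) *
        ((if E q t then (1 : ℝ) else 0) - ρ q) ≤
        (if p = q then T.card * ρ p else 0) + 3 * K := by
    intro p hp q hq
    obtain ⟨p0, p1⟩ := hρ p hp
    obtain ⟨q0, q1⟩ := hρ q hq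
    have e1 := h1 p hp
    have e2 := h1 q hq
    have hK : 0 ≤ K := (abs_nonneg _).trans e1
    rw [← sum_ind, abs_le] at e1 e2
    have hexp : ∑ t ∈ T, ((if E p t then (1 : ℝ) else 0) - ρ p) *
        ((if E q t then (1 : ℝ) else 0) - ρ q) =
        ∑ t ∈ T, (if E p t then (1 : ℝ) else 0) * (if E q t then (1 : ℝ) else 0) -
        ρ q * ∑ t ∈ T, (if E p t then (1 : ℝ) else 0) -
        ρ p * ∑ t ∈ T, (if E q t then (1 : ℝ) else 0) + T.card * (ρ p * ρ q) := by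
      rw [Finset.mul_sum, Finset.mul_sum, ← Finset.sum_sub_distrib, ← Finset.sum_sub_distrib]
      have : (T.card : ℝ) * (ρ p * ρ q) = ∑ t ∈ T, ρ p * ρ q := by
        rw [Finset.sum_const, nsmul_eq_mul]
      rw [this, ← Finset.sum_add_distrib]
      apply Finset.sum_congr rfl
      intro x _
      ring
    rw [hexp]
    by_cases hpq : p = q
    · subst hpq
      rw [if_pos rfl]
      have e3 : ∑ t ∈ T, (if E p t then (1 : ℝ) else 0) * (if E p t then (1 : ℝ) else 0) =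
          ∑ t ∈ T, (if E p t then (1 : ℝ) else 0) := by
        apply Finset.sum_congr rfl
        intro x _
        split_ifs <;> simp
      rw [e3]
      set F := ∑ t ∈ T, (if E p t then (1 : ℝ) else 0) with hF
      have hT : (0 : ℝ) ≤ T.card := Nat.cast_nonneg _
      have e4 : F - ρ p * F - ρ p * F + T.card * (ρ p * ρ p) =
          T.card * ρ p - T.card * (ρ p * ρ p) + (F - T.card * ρ p) * (1 - 2 * ρ p) := by ring
      rw [e4]
      have e5 : (F - T.card * ρ p) * (1 - 2 * ρ p) ≤ K := by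
        have e6 : |(F - T.card * ρ p) * (1 - 2 * ρ p)| ≤ K * 1 := by
          rw [abs_mul]
          exact mul_le_mul (abs_le.2 e1) (abs_le.2 ⟨by linarith, by linarith⟩) (abs_nonneg _) hK
        have := le_abs_self ((F - T.card * ρ p) * (1 - 2 * ρ p))
        linarith
      have e7 : 0 ≤ (T.card : ℝ) * (ρ p * ρ p) := by positivity
      linarith
    · rw [if_neg hpq, zero_add]
      have e3 : ∑ t ∈ T, (if E p t then (1 : ℝ) else 0) * (if E q t then (1 : ℝ) else 0) =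
          ∑ t ∈ T, (if E p t ∧ E q t then (1 : ℝ) else 0) := by
        apply Finset.sum_congr rfl
        intro x _
        by_cases h3 : E p x <;> by_cases h4 : E q x <;> simp [h3, h4]
      rw [e3]
      have e6 := h2 p hp q hq hpq
      rw [← sum_ind T (fun t => E p t ∧ E q t), abs_le] at e6
      have e7 : ρ q * (T.card * ρ p - K) ≤ ρ q * ∑ t ∈ T, (if E p t then (1 : ℝ) else 0) :=
        mul_le_mul_of_nonneg_left (by linarith) q0
      have e8 : ρ p * (T.card * ρ q - K) ≤ ρ p * ∑ t ∈ T, (if E q t then (1 : ℝ) else 0) :=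
        mul_le_mul_of_nonneg_left (by linarith) p0
      have e9 : ρ q * K ≤ 1 * K := mul_le_mul_of_nonneg_right q1 hK
      have e10 : ρ p * K ≤ 1 * K := mul_le_mul_of_nonneg_right p1 hK
      have e11 := e6.2
      nlinarith
  calc _ ≤ ∑ p ∈ P, ∑ q ∈ P, ((if p = q then (T.card : ℝ) * ρ p else 0) + 3 * K) :=
        Finset.sum_le_sum fun p hp => Finset.sum_le_sum fun q hq => g2 p hp q hq
    _ = _ := by
        simp_rw [Finset.sum_add_distrib]
        rw [Finset.mul_sum]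
        congr 1
        · apply Finset.sum_congr rfl
          intro p hp
          rw [Finset.sum_ite_eq, if_pos hp]
        · rw [Finset.sum_const, Finset.sum_const, nsmul_eq_mul, nsmul_eq_mul]
          ring

end Pool.Agent.L0h19.TU
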