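import Pool.Agent.L0h5.TU.Stm
import Pool.Agent.L0h71.TT.Typ
import Pool.Agent.L0h19.TU.Typ0

/-!
# Project TU, module I: the number of the prime factors of the values of a binary form
-/

set_option autoImplicit false
set_option linter.unusedVariables false

namespace Pool.Agent.L0h19.TU

open Finset Polynomial Pool.Agent.L0h5.TU Pool.Agent.L0h5.TQ Pool.Agent.L0h5.MR
open Pool.Agent.W262.RK (PS mem_PS)
open Pool.Agent.L0h5.TF (FF Fm Gz rts card_rts mod_dvd dvd_eval_congr)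
open Pool.Agent.L0h5.TH (rs rs_dvd rs_lt)
open Pool.Agent.L0h5.TT (LL)

open Classical in
/-- the classes at which the form is divisible by `p` -/
noncomputable def SS (P : ℤ[X]) (p : ℕ) : Finset (ℕ × ℕ) :=
  (range p ×ˢ range p).filter (fun x : ℕ × ℕ => (p : ℤ) ∣ hv P ((x.1 : ℤ), (x.2 : ℤ)))

lemma mem_SS {P : ℤ[X]} {p : ℕ} {x : ℕ × ℕ} : x ∈ SS P p ↔
    (x.1 < p ∧ x.2 < p) ∧ (p : ℤ) ∣ hv P ((x.1 : ℤ), (x.2 : ℤ)) := by
  unfold SS
  rw [mem_filter, mem_product, mem_range, mem_range]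

lemma SS_ge (P : ℤ[X]) {p : ℕ} (hp : p.Prime) : (p - 1) * rho P p ≤ (SS P p).card := by
  classical
  have h := nuH_ge (J := Unit) (P := fun _ => P) hp
  have h1 : FF (fun _ : Unit => P) = P := by
    unfold FF
    simp
  rw [h1] at h
  have h2 : nuH (fun _ : Unit => P) p = (SS P p).card := by
    unfold nuH SS
    congr 1
    refine filter_congr fun x _ => ?_
    unfold QH
    rw [h1]
  rwa [h2] at h

lemma SS_le (P : ℤ[X]) {p : ℕ} (hp : p.Prime) (hlc : ¬ (p : ℤ) ∣ P.leadingCoeff) :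
    (SS P p).card ≤ rho P p * (p - 1) + 1 := by
  classical
  have hpi := Nat.prime_iff_prime_int.1 hp
  have hsub : SS P p ⊆
      ((rts P p ×ˢ Ico 1 p).image (fun x => (x.2 * x.1 % p, x.2))) ∪ {(0, 0)} := by
    intro x hx
    rw [mem_SS] at hx
    obtain ⟨⟨h1, h2⟩, h3⟩ := hx
    rw [mem_union, mem_image, mem_singleton]
    rcases Nat.eq_zero_or_pos x.2 with h0 | h0
    · right
      rw [h0] at h3
      have h4 := hv_lead P (a := (x.1 : ℤ)) (b := ((0 : ℕ) : ℤ)) (n := (p : ℤ))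
        (by rw [Nat.cast_zero]; exact dvd_zero _)
      have h5 : (p : ℤ) ∣ P.leadingCoeff * (x.1 : ℤ) ^ P.natDegree := by
        have := dvd_sub h3 h4
        rwa [sub_sub_cancel] at this
      have h6 : (p : ℤ) ∣ (x.1 : ℤ) := by
        rcases hpi.dvd_or_dvd h5 with h6 | h6
        · exact absurd h6 hlc
        · exact hpi.dvd_of_dvd_pow h6
      have h7 : p ∣ x.1 := by exact_mod_cast h6
      have h8 : x.1 = 0 := Nat.eq_zero_of_dvd_of_lt h7 h1
      exact Prod.ext h8 h0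
    · left
      have hb : ¬ (p : ℤ) ∣ (x.2 : ℤ) := by
        intro hd
        have h7 : p ∣ x.2 := by exact_mod_cast hd
        have := Nat.le_of_dvd h0 h7
        omega
      have hb' : ¬ (p : ℤ) ∣ (((x.1 : ℤ), (x.2 : ℤ)) : ℤ × ℤ).2 := hb
      have h4 := (hv_iff1 P hp hb').1 h3
      obtain ⟨-, htp⟩ := tp_spec hp hb'
      set w := tp ((x.1 : ℤ), (x.2 : ℤ)) p with hw
      have hr := rs_dvd (w : ℤ) hp.ne_zero
      refine ⟨(rs (w : ℤ) p, x.2), ?_, ?_⟩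
      · rw [mem_product, mem_Ico]
        refine ⟨?_, h0, h2⟩
        unfold rts
        rw [mem_filter, mem_range]
        show rs (w : ℤ) p < p ∧ (p : ℤ) ∣ P.eval ((rs (w : ℤ) p : ℕ) : ℤ)
        exact ⟨rs_lt _ hp.ne_zero, (dvd_eval_congr P hr).1 h4⟩
      · refine Prod.ext ?_ rfl
        have h5 : (p : ℤ) ∣ (x.1 : ℤ) - ((x.2 * rs (w : ℤ) p : ℕ) : ℤ) := by
          push_cast
          have e : (x.1 : ℤ) - (x.2 : ℤ) * (rs (w : ℤ) p : ℤ) =
              (x.2 : ℤ) * ((w : ℤ) - (rs (w : ℤ) p : ℤ)) - ((x.2 : ℤ) * (w : ℤ) - x.1) := by ring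
          rw [e]
          exact dvd_sub (hr.mul_left _) ((dvd_pow_self (p : ℤ) two_ne_zero).trans htp)
        have h6 : x.2 * rs (w : ℤ) p ≡ x.1 [MOD p] := (Nat.modEq_iff_dvd).2 h5
        have h7 : x.2 * rs (w : ℤ) p % p = x.1 % p := h6
        rw [Nat.mod_eq_of_lt h1] at h7
        exact h7
  refine (card_le_card hsub).trans ((card_union_le _ _).trans ?_)
  rw [card_singleton]
  refine Nat.add_le_add_right (card_image_le.trans ?_) 1
  rw [card_product, card_rts, Nat.card_Ico]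

lemma SS_le' (P : ℤ[X]) {p c : ℕ} (hp : p.Prime) (hlc : ¬ (p : ℤ) ∣ P.leadingCoeff)
    (hc : P.natDegree = c) (hc1 : 1 ≤ c) : (SS P p).card ≤ c * p := by
  have h1 := SS_le P hp hlc
  have h2 := rho_le P hp hlc
  rw [hc] at h2
  obtain ⟨w, rfl⟩ : ∃ w, p = w + 1 := ⟨p - 1, by have := hp.pos; omega⟩
  rw [Nat.add_sub_cancel] at h1
  have h3 : rho P (w + 1) * w ≤ c * w := Nat.mul_le_mul_right _ h2
  have h4 : c * (w + 1) = c * w + c := by ring
  omega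

lemma dvd_iff (P : ℤ[X]) {p : ℕ} (hp : p ≠ 0) (t : ℤ × ℤ) : (p : ℤ) ∣ hv P t ↔
    ∃ s ∈ SS P p, t.1 ≡ (s.1 : ℤ) [ZMOD p] ∧ t.2 ≡ (s.2 : ℤ) [ZMOD p] := by
  constructor
  · intro h
    have h1 := rs_dvd t.1 hp
    have h2 := rs_dvd t.2 hp
    refine ⟨(rs t.1 p, rs t.2 p), mem_SS.2 ⟨⟨rs_lt _ hp, rs_lt _ hp⟩, ?_⟩, ?_, ?_⟩
    · have h3 := hv_congr P (t := t) (t' := ((rs t.1 p : ℤ), (rs t.2 p : ℤ))) h1 h2
      have := dvd_sub h h3
      rwa [sub_sub_cancel] at this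
    · exact (Int.modEq_iff_dvd.2 h1).symm
    · exact (Int.modEq_iff_dvd.2 h2).symm
  · rintro ⟨s, hs, h1, h2⟩
    rw [mem_SS] at hs
    have h3 := hv_congr P (t := t) (t' := ((s.1 : ℤ), (s.2 : ℤ)))
      (Int.modEq_iff_dvd.1 h1.symm) (Int.modEq_iff_dvd.1 h2.symm)
    have := dvd_add h3 hs.2
    rwa [sub_add_cancel] at this

lemma eq_of_modEq {p a b : ℕ} (ha : a < p) (hb : b < p) (h : (a : ℤ) ≡ (b : ℤ) [ZMOD p]) :
    a = b := by
  have h1 : a ≡ b [MOD p] := Int.natCast_modEq_iff.1 h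
  have h2 : a % p = b % p := h1
  rwa [Nat.mod_eq_of_lt ha, Nat.mod_eq_of_lt hb] at h2

lemma cntp (P : ℤ[X]) {p : ℕ} (hp : p.Prime) (X : ℕ) :
    |(((II X ×ˢ II X).filter (fun t : ℤ × ℤ => (p : ℤ) ∣ hv P t)).card : ℝ) -
      (SS P p).card * ((2 * X + 1 : ℝ) / p) ^ 2| ≤
      (SS P p).card * (2 * ((2 * X + 1 : ℝ) / p) + 1) := by
  refine boxcount X hp.pos (SS P p) (fun s => ((s.1 : ℤ), (s.2 : ℤ))) ?_ _ ?_
  · intro s hs s' hs' h1 h2
    rw [mem_SS] at hs hs'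
    exact Prod.ext (eq_of_modEq hs.1.1 hs'.1.1 h1) (eq_of_modEq hs.1.2 hs'.1.2 h2)
  · intro t
    rw [mem_filter, mem_product, dvd_iff P hp.ne_zero]

lemma cntpq (P : ℤ[X]) {p q : ℕ} (hp : p.Prime) (hq : q.Prime) (hpq : p ≠ q) (X : ℕ) :
    |(((II X ×ˢ II X).filter (fun t : ℤ × ℤ => (p : ℤ) ∣ hv P t ∧ (q : ℤ) ∣ hv P t)).card : ℝ) -
      ((SS P p).card * (SS P q).card : ℕ) * ((2 * X + 1 : ℝ) / (p * q : ℕ)) ^ 2| ≤
      ((SS P p).card * (SS P q).card : ℕ) * (2 * ((2 * X + 1 : ℝ) / (p * q : ℕ)) + 1) := by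
  have hco : Nat.Coprime p q := (Nat.coprime_primes hp hq).2 hpq
  have hcrt : ∀ (a b : ℕ) (x : ℤ), (x ≡ ((Nat.chineseRemainder hco a b : ℕ) : ℤ)
      [ZMOD ((p * q : ℕ) : ℤ)]) ↔ x ≡ (a : ℤ) [ZMOD p] ∧ x ≡ (b : ℤ) [ZMOD q] := by
    intro a b x
    obtain ⟨k, hk1, hk2⟩ := Nat.chineseRemainder hco a b
    have h1 : (k : ℤ) ≡ (a : ℤ) [ZMOD p] := Int.natCast_modEq_iff.2 hk1
    have h2 : (k : ℤ) ≡ (b : ℤ) [ZMOD q] := Int.natCast_modEq_iff.2 hk2
    push_cast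
    rw [← Int.modEq_and_modEq_iff_modEq_mul (by simpa using hco)]
    constructor
    · rintro ⟨h3, h4⟩
      exact ⟨h3.trans h1, h4.trans h2⟩
    · rintro ⟨h3, h4⟩
      exact ⟨h3.trans h1.symm, h4.trans h2.symm⟩
  have h := boxcount X (Nat.mul_pos hp.pos hq.pos) (SS P p ×ˢ SS P q)
    (fun s => (((Nat.chineseRemainder hco s.1.1 s.2.1 : ℕ) : ℤ),
      ((Nat.chineseRemainder hco s.1.2 s.2.2 : ℕ) : ℤ))) ?_
    ((II X ×ˢ II X).filter (fun t : ℤ × ℤ => (p : ℤ) ∣ hv P t ∧ (q : ℤ) ∣ hv P t)) ?_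
  · rwa [card_product] at h
  · intro s hs s' hs' h1 h2
    simp only at h1 h2
    rw [hcrt] at h1 h2
    rw [mem_product, mem_SS, mem_SS] at hs hs'
    have g1 := (hcrt s.1.1 s.2.1 ((Nat.chineseRemainder hco s.1.1 s.2.1 : ℕ) : ℤ)).1 rfl
    have g2 := (hcrt s.1.2 s.2.2 ((Nat.chineseRemainder hco s.1.2 s.2.2 : ℕ) : ℤ)).1 rfl
    refine Prod.ext (Prod.ext ?_ ?_) (Prod.ext ?_ ?_)
    · exact eq_of_modEq hs.1.1.1 hs'.1.1.1 (g1.1.symm.trans h1.1)
    · exact eq_of_modEq hs.1.1.2 hs'.1.1.2 (g2.1.symm.trans h2.1)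
    · exact eq_of_modEq hs.2.1.1 hs'.2.1.1 (g1.2.symm.trans h1.2)
    · exact eq_of_modEq hs.2.1.2 hs'.2.1.2 (g2.2.symm.trans h2.2)
  · intro t
    rw [mem_filter, mem_product, dvd_iff P hp.ne_zero, dvd_iff P hq.ne_zero]
    simp only [hcrt]
    constructor
    · rintro ⟨h1, ⟨s, hs, h2, h3⟩, s', hs', h4, h5⟩
      exact ⟨h1, (s, s'), mem_product.2 ⟨hs, hs'⟩, ⟨h2, h4⟩, h3, h5⟩
    · rintro ⟨h1, ⟨s, s'⟩, hs, ⟨h2, h4⟩, h3, h5⟩
      rw [mem_product] at hs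
      exact ⟨h1, ⟨s, hs.1, h2, h3⟩, s', hs.2, h4, h5⟩

/-- the density -/
noncomputable def dn (P : ℤ[X]) (p : ℕ) : ℝ := ((SS P p).card : ℝ) / (p : ℝ) ^ 2

lemma card_box (X : ℕ) : (((II X ×ˢ II X).card : ℕ) : ℝ) = (2 * X + 1 : ℝ) ^ 2 := by
  rw [card_product]
  unfold II
  rw [Int.card_Icc]
  have h : ((X : ℤ) + 1 - -(X : ℤ)).toNat = 2 * X + 1 := by omega
  rw [h]
  push_cast
  ring

/-- the variance -/
lemma var (P : ℤ[X]) {z0 w X c : ℕ} (hlc : ∀ p : ℕ, p.Prime → z0 < p → ¬ (p : ℤ) ∣ P.leadingCoeff)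
    (hc : P.natDegree = c) (hc1 : 1 ≤ c) (hcw : c ≤ w) (hwX : w ^ 4 ≤ X) :
    ∑ t ∈ II X ×ˢ II X, (∑ p ∈ PS z0 w, ((if (p : ℤ) ∣ hv P t then (1 : ℝ) else 0) - dn P p)) ^ 2 ≤
      (2 * X + 1 : ℝ) ^ 2 * ∑ p ∈ PS z0 w, dn P p + 21 * (X : ℝ) ^ 2 := by
  set K : ℝ := (c : ℝ) ^ 2 * (2 * (2 * X + 1) + (w : ℝ) ^ 2) with hK
  have hc1' : (1 : ℝ) ≤ c := by exact_mod_cast hc1
  have hX0 : (0 : ℝ) ≤ X := Nat.cast_nonneg _
  have hcc : (c : ℝ) ≤ (c : ℝ) ^ 2 := by nlinarith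
  have h := turan (II X ×ˢ II X) (PS z0 w) (fun p t => (p : ℤ) ∣ hv P t) (dn P) K ?_ ?_ ?_
  · rw [card_box] at h
    refine h.trans ?_
    have h1 : ((PS z0 w).card : ℝ) ≤ w := by
      have h2 : (PS z0 w).card ≤ w := by
        refine (card_le_card (filter_subset _ _)).trans ?_
        rw [Nat.card_Ioc]
        omega
      exact_mod_cast h2
    have h2 : ((PS z0 w).card : ℝ) ^ 2 ≤ (w : ℝ) ^ 2 := pow_le_pow_left₀ (Nat.cast_nonneg _) h1 2
    have h3 : (c : ℝ) ^ 2 * (w : ℝ) ^ 2 ≤ X := by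
      have h4 : c ^ 2 * w ^ 2 ≤ X := by
        calc c ^ 2 * w ^ 2 ≤ w ^ 2 * w ^ 2 := Nat.mul_le_mul_right _ (Nat.pow_le_pow_left hcw 2)
          _ = w ^ 4 := by ring
          _ ≤ X := hwX
      exact_mod_cast h4
    have h4 : (w : ℝ) ^ 2 ≤ X := by
      have h5 : w ^ 2 ≤ X := (Nat.pow_le_pow_right (by omega) (by norm_num)).trans hwX
      exact_mod_cast h5
    have hX1 : (1 : ℝ) ≤ X := by
      have h5 : 1 ≤ X := (Nat.one_le_pow _ _ (by omega)).trans hwX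
      exact_mod_cast h5
    have h5 : 3 * K * ((PS z0 w).card : ℝ) ^ 2 ≤ 21 * (X : ℝ) ^ 2 := by
      have hK0 : 0 ≤ K := by positivity
      calc 3 * K * ((PS z0 w).card : ℝ) ^ 2 ≤ 3 * K * (w : ℝ) ^ 2 := by gcongr
        _ = 3 * ((c : ℝ) ^ 2 * (w : ℝ) ^ 2) * (2 * (2 * X + 1) + (w : ℝ) ^ 2) := by rw [hK]; ring
        _ ≤ 3 * X * (7 * X) := by
            apply mul_le_mul
            · linarith
            · linarith
            · positivity
            · positivity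
        _ = 21 * (X : ℝ) ^ 2 := by ring
    linarith
  · intro p hp
    obtain ⟨⟨h1, h2⟩, h3⟩ := mem_PS.1 hp
    have hp0 : (0 : ℝ) < p := by exact_mod_cast h3.pos
    refine ⟨by unfold dn; positivity, ?_⟩
    unfold dn
    rw [div_le_one (by positivity)]
    have h4 : (SS P p).card ≤ p ^ 2 := by
      unfold SS
      refine (card_filter_le _ _).trans ?_
      rw [card_product, card_range, sq]
    exact_mod_cast h4
  · intro p hp
    obtain ⟨⟨h1, h2⟩, h3⟩ := mem_PS.1 hp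
    have hp0 : (0 : ℝ) < p := by exact_mod_cast h3.pos
    have h4 := cntp P h3 X
    rw [card_box]
    have e : (2 * X + 1 : ℝ) ^ 2 * dn P p = (SS P p).card * ((2 * X + 1 : ℝ) / p) ^ 2 := by
      unfold dn
      field_simp
    rw [e]
    refine h4.trans ?_
    have h5 : ((SS P p).card : ℝ) ≤ c * p := by
      exact_mod_cast SS_le' P h3 (hlc p h3 h1) hc hc1
    have h6 : (p : ℝ) ≤ (w : ℝ) ^ 2 := by
      have h7 : p ≤ w ^ 2 := h2.trans (Nat.le_self_pow (by norm_num) w)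
      exact_mod_cast h7
    calc ((SS P p).card : ℝ) * (2 * ((2 * X + 1 : ℝ) / p) + 1) ≤
        (c * p) * (2 * ((2 * X + 1 : ℝ) / p) + 1) := by gcongr
      _ = c * (2 * (2 * X + 1) + p) := by field_simp
      _ ≤ K := by
        rw [hK]
        gcongr
  · intro p hp q hq hpq
    obtain ⟨⟨h1, h2⟩, h3⟩ := mem_PS.1 hp
    obtain ⟨⟨h1', h2'⟩, h3'⟩ := mem_PS.1 hq
    have hp0 : (0 : ℝ) < p := by exact_mod_cast h3.pos
    have hq0 : (0 : ℝ) < q := by exact_mod_cast h3'.pos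
    have h4 := cntpq P h3 h3' hpq X
    rw [card_box]
    have e : (2 * X + 1 : ℝ) ^ 2 * (dn P p * dn P q) =
        ((SS P p).card * (SS P q).card : ℕ) * ((2 * X + 1 : ℝ) / (p * q : ℕ)) ^ 2 := by
      unfold dn
      push_cast
      field_simp
    rw [e]
    refine h4.trans ?_
    have h5 : ((SS P p).card : ℝ) ≤ c * p := by
      exact_mod_cast SS_le' P h3 (hlc p h3 h1) hc hc1
    have h5' : ((SS P q).card : ℝ) ≤ c * q := by
      exact_mod_cast SS_le' P h3' (hlc q h3' h1') hc hc1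
    have h6 : (p : ℝ) * q ≤ (w : ℝ) ^ 2 := by
      have h7 : p * q ≤ w ^ 2 := by
        rw [sq]
        exact Nat.mul_le_mul h2 h2'
      exact_mod_cast h7
    push_cast
    calc ((SS P p).card : ℝ) * (SS P q).card * (2 * ((2 * X + 1 : ℝ) / (p * q)) + 1) ≤
        (c * p) * (c * q) * (2 * ((2 * X + 1 : ℝ) / (p * q)) + 1) := by gcongr
      _ = (c : ℝ) ^ 2 * (2 * (2 * X + 1) + p * q) := by field_simp
      _ ≤ K := by
        rw [hK]
        gcongr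

/-- the sum of the densities -/
lemma dn_sum (P : ℤ[X]) (hirr : Irreducible (P.map (Int.castRingHom ℚ))) {z0 c : ℕ}
    (hlc : ∀ p : ℕ, p.Prime → z0 < p → ¬ (p : ℤ) ∣ P.leadingCoeff)
    (hc : P.natDegree = c) (hc1 : 1 ≤ c) :
    ∃ C : ℝ, 0 ≤ C ∧ ∀ w : ℕ, 3 ≤ w → |∑ p ∈ PS z0 w, dn P p - LL w| ≤ C := by
  classical
  obtain ⟨C, hC⟩ := mertens_rho P hirr
  have hC0 : 0 ≤ C := (abs_nonneg _).trans (hC 3 le_rfl)
  refine ⟨C + z0 + 2 * c, by positivity, fun w hw => ?_⟩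
  have h1 := hC w hw
  have hc1' : (1 : ℝ) ≤ c := by exact_mod_cast hc1
  have hsub : PS z0 w ⊆ pr w := by
    intro p hp
    obtain ⟨⟨h2, h3⟩, h4⟩ := mem_PS.1 hp
    unfold pr
    rw [mem_filter, mem_Icc]
    exact ⟨⟨h4.one_le, h3⟩, h4⟩
  have h2 : ∑ p ∈ PS z0 w, (rho P p : ℝ) / p ≤ ∑ p ∈ pr w, (rho P p : ℝ) / p :=
    Finset.sum_le_sum_of_subset_of_nonneg hsub fun p _ _ => by positivity
  have h3 : ∑ p ∈ pr w, (rho P p : ℝ) / p ≤ ∑ p ∈ PS z0 w, (rho P p : ℝ) / p + z0 := by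
    rw [← Finset.sum_sdiff hsub, add_comm]
    gcongr
    have h4 : ∀ p ∈ pr w \ PS z0 w, (rho P p : ℝ) / p ≤ 1 := by
      intro p hp
      rw [mem_sdiff] at hp
      have h5 := hp.1
      unfold pr at h5
      rw [mem_filter] at h5
      have h6 : (0 : ℝ) < p := by exact_mod_cast h5.2.pos
      rw [div_le_one h6]
      have h7 : rho P p ≤ p := (Finset.card_filter_le _ _).trans (by simp)
      exact_mod_cast h7
    refine (Finset.sum_le_sum h4).trans ?_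
    rw [sum_const, nsmul_eq_mul, mul_one]
    have h5 : pr w \ PS z0 w ⊆ Icc 1 z0 := by
      intro p hp
      rw [mem_sdiff] at hp
      obtain ⟨h6, h7⟩ := hp
      unfold pr at h6
      rw [mem_filter, mem_Icc] at h6
      rw [mem_PS] at h7
      rw [mem_Icc]
      refine ⟨h6.1.1, ?_⟩
      by_contra h8
      exact h7 ⟨⟨not_le.1 h8, h6.1.2⟩, h6.2⟩
    have h6 := card_le_card h5
    rw [Nat.card_Icc, Nat.add_sub_cancel] at h6
    exact_mod_cast h6
  have h4 : ∀ p ∈ PS z0 w, |dn P p - (rho P p : ℝ) / p| ≤ c * (1 / (p : ℝ) ^ 2) := by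
    intro p hp
    obtain ⟨⟨h5, h6⟩, h7⟩ := mem_PS.1 hp
    have hp1 : (1 : ℝ) ≤ p := by exact_mod_cast h7.one_le
    have hp0 : (0 : ℝ) < p := by linarith
    have g1 := SS_ge P h7
    have g2 := SS_le P h7 (hlc p h7 h5)
    have g3 := rho_le P h7 (hlc p h7 h5)
    rw [hc] at g3
    have g1' : ((p : ℝ) - 1) * rho P p ≤ (SS P p).card := by
      have h8 : (((p - 1) * rho P p : ℕ) : ℝ) ≤ (SS P p).card := by exact_mod_cast g1
      rw [Nat.cast_mul, Nat.cast_sub h7.one_lt.le, Nat.cast_one] at h8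
      exact h8
    have g2' : ((SS P p).card : ℝ) ≤ rho P p * ((p : ℝ) - 1) + 1 := by
      have h8 : ((SS P p).card : ℝ) ≤ ((rho P p * (p - 1) + 1 : ℕ) : ℝ) := by exact_mod_cast g2
      rw [Nat.cast_add, Nat.cast_mul, Nat.cast_sub h7.one_lt.le, Nat.cast_one] at h8
      exact h8
    have g3' : (rho P p : ℝ) ≤ c := by exact_mod_cast g3
    have g4 : (0 : ℝ) ≤ rho P p := Nat.cast_nonneg _
    have e : dn P p - (rho P p : ℝ) / p = ((SS P p).card - p * rho P p) * (1 / (p : ℝ) ^ 2) := by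
      unfold dn
      field_simp
    rw [e, abs_mul, abs_of_nonneg (show (0 : ℝ) ≤ 1 / (p : ℝ) ^ 2 by positivity)]
    apply mul_le_mul_of_nonneg_right _ (by positivity)
    rw [abs_le]
    constructor <;> nlinarith
  have h5 : ∑ p ∈ PS z0 w, 1 / (p : ℝ) ^ 2 ≤ 2 := by
    refine le_trans (Finset.sum_le_sum_of_subset_of_nonneg (t := Icc 1 w) ?_
      fun p _ _ => by positivity) (Pool.Agent.L0h71.TT.sum_inv_sq w)
    intro p hp
    obtain ⟨⟨h5, h6⟩, h7⟩ := mem_PS.1 hp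
    rw [mem_Icc]
    exact ⟨h7.one_le, h6⟩
  have h6 : |∑ p ∈ PS z0 w, dn P p - ∑ p ∈ PS z0 w, (rho P p : ℝ) / p| ≤ 2 * c := by
    rw [← Finset.sum_sub_distrib]
    refine (abs_sum_le_sum_abs _ _).trans ((Finset.sum_le_sum h4).trans ?_)
    rw [← mul_sum]
    nlinarith
  have h7 : LL w = Real.log (Real.log w) := rfl
  rw [h7]
  rw [abs_le] at h1 h6 ⊢
  have hz : (0 : ℝ) ≤ z0 := Nat.cast_nonneg _
  constructor <;> linarith [h1.1, h1.2, h6.1, h6.2]

/-- the number of the prime factors -/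
lemma om_near {n z0 z M X D : ℕ} (hn : n ≠ 0) (hnX : n ≤ M * X ^ D) (hXz : X < (z + 1) ^ 4)
    (hMz : M ≤ z + 1) :
    |(n.primeFactors.card : ℝ) - (((PS z0 z).filter (fun p => p ∣ n)).card : ℝ)| ≤
      (4 * D + 1 + z0 : ℕ) := by
  have h1 : (PS z0 z).filter (fun p => p ∣ n) ⊆ n.primeFactors := by
    intro p hp
    rw [mem_filter, mem_PS] at hp
    exact Nat.mem_primeFactors.mpr ⟨hp.1.2, hp.2, hn⟩
  have h2 : n.primeFactors ⊆ (PS z0 z).filter (fun p => p ∣ n) ∪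
      (n.primeFactors.filter (fun p => z < p) ∪ Icc 1 z0) := by
    intro p hp
    have hp' := Nat.mem_primeFactors.mp hp
    rw [mem_union, mem_union, mem_filter, mem_filter, mem_PS, mem_Icc]
    by_cases h3 : z < p
    · exact Or.inr (Or.inl ⟨hp, h3⟩)
    · by_cases h4 : p ≤ z0
      · right
        right
        exact ⟨hp'.1.one_le, h4⟩
      · left
        exact ⟨⟨⟨not_le.1 h4, by omega⟩, hp'.1⟩, hp'.2.1⟩
  have h3 : (n.primeFactors.filter (fun p => z < p)).card ≤ 4 * D + 1 := by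
    by_contra hcon
    push Not at hcon
    have h4 : (z + 1) ^ (n.primeFactors.filter (fun p => z < p)).card ≤
        ∏ p ∈ n.primeFactors.filter (fun p => z < p), p := by
      rw [← Finset.prod_const]
      apply Finset.prod_le_prod'
      intro p hp
      rw [mem_filter] at hp
      omega
    have h5 : ∏ p ∈ n.primeFactors.filter (fun p => z < p), p ≤ ∏ p ∈ n.primeFactors, p := by
      apply Finset.prod_le_prod_of_subset_of_one_le' (filter_subset _ _)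
      intro p hp _
      exact (Nat.mem_primeFactors.mp hp).1.one_le
    have h6 : ∏ p ∈ n.primeFactors, p ≤ n := Nat.le_of_dvd (Nat.pos_of_ne_zero hn)
      (Nat.prod_primeFactors_dvd n)
    have h8 : n ≤ (z + 1) ^ (4 * D + 1) := by
      calc n ≤ M * X ^ D := hnX
        _ ≤ (z + 1) * ((z + 1) ^ 4) ^ D := Nat.mul_le_mul hMz (Nat.pow_le_pow_left hXz.le _)
        _ = _ := by
          rw [← pow_mul, ← pow_succ']
    have h9 : ∃ p, p ∈ n.primeFactors.filter (fun p => z < p) := by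
      rw [← Finset.Nonempty, ← Finset.card_pos]
      omega
    have hz1 : 1 ≤ z := by
      by_contra hz
      have hz0 : z = 0 := by omega
      rw [hz0] at h8
      rw [zero_add, one_pow] at h8
      obtain ⟨p, hp⟩ := h9
      rw [mem_filter] at hp
      have hp' := Nat.mem_primeFactors.mp hp.1
      have := Nat.le_of_dvd (Nat.pos_of_ne_zero hn) hp'.2.1
      have := hp'.1.two_le
      omega
    have h7 : (z + 1) ^ (4 * D + 1) < (z + 1) ^ (n.primeFactors.filter (fun p => z < p)).card :=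
      Nat.pow_lt_pow_right (by omega) (by omega)
    omega
  have h4 := (card_le_card h2).trans (card_union_le _ _)
  have h5 := card_union_le (n.primeFactors.filter (fun p => z < p)) (Icc 1 z0)
  rw [Nat.card_Icc, Nat.add_sub_cancel] at h5
  have h6 := card_le_card h1
  have h7 : n.primeFactors.card ≤ ((PS z0 z).filter (fun p => p ∣ n)).card +
      (4 * D + 1 + z0) := by omega
  have h8 : (n.primeFactors.card : ℝ) ≤ (((PS z0 z).filter (fun p => p ∣ n)).card : ℝ) +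
      ((4 * D + 1 + z0 : ℕ) : ℝ) := by exact_mod_cast h7
  have h9 : (((PS z0 z).filter (fun p => p ∣ n)).card : ℝ) ≤ n.primeFactors.card := by
    exact_mod_cast h6
  have h10 : (0 : ℝ) ≤ ((4 * D + 1 + z0 : ℕ) : ℝ) := Nat.cast_nonneg _
  rw [abs_le]
  constructor <;> linarith

open Classical in
/-- **I** the number of the pairs that are not typical -/
theorem s_typ : S2_TYP := by
  intro P hirr
  set c : ℕ := P.natDegree with hc
  have hc1 : 1 ≤ c := by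
    have h2 := hirr.natDegree_pos
    rwa [natDegree_map_eq_of_injective (RingHom.injective_int _)] at h2
  have hP0 : P ≠ 0 := by
    rintro rfl
    simp at hirr
  set z0 : ℕ := P.leadingCoeff.natAbs with hz0
  have hlc : ∀ p : ℕ, p.Prime → z0 < p → ¬ (p : ℤ) ∣ P.leadingCoeff := by
    intro p _ hzp hd
    have h3 := Nat.le_of_dvd (Int.natAbs_pos.2 (leadingCoeff_ne_zero.2 hP0))
      (Int.natCast_dvd.1 hd)
    omega
  obtain ⟨C, hC0, hC⟩ := dn_sum P hirr hlc hc.symm hc1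
  set M : ℕ := ∑ i ∈ range (P.natDegree + 1), (P.coeff i).natAbs with hM
  set c1 : ℝ := ((4 * c + 1 + z0 : ℕ) : ℝ) with hc1'
  set c2 : ℝ := C + Real.log 8 with hc2
  have hc10 : 0 ≤ c1 := Nat.cast_nonneg _
  have hlog8 : 0 ≤ Real.log 8 := Real.log_nonneg (by norm_num)
  have hc20 : 0 ≤ c2 := by positivity
  have hev : ∀ᶠ X : ℕ in Filter.atTop, 1 ≤ LL X ∧ c2 + 3 ≤ LL X ∧
      2 * (c1 + c2) ≤ (LL X) ^ (3 / 4 : ℝ) := by
    have hL : Filter.Tendsto LL Filter.atTop Filter.atTop :=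
      Real.tendsto_log_atTop.comp (Real.tendsto_log_atTop.comp tendsto_natCast_atTop_atTop)
    have hL2 : Filter.Tendsto (fun X : ℕ => (LL X) ^ (3 / 4 : ℝ)) Filter.atTop Filter.atTop :=
      (tendsto_rpow_atTop (by norm_num)).comp hL
    filter_upwards [hL.eventually_ge_atTop 1, hL.eventually_ge_atTop (c2 + 3),
      hL2.eventually_ge_atTop (2 * (c1 + c2))] with X h1 h2 h3
    exact ⟨h1, h2, h3⟩
  obtain ⟨X1, hX1⟩ := Filter.eventually_atTop.mp hev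
  set zz : ℕ := max 3 (max M c) with hzz
  refine ⟨72, max (max 16 X1) (zz ^ 4), (le_max_left _ _).trans (le_max_left _ _),
    fun X hX => ?_⟩
  have hXX1 : X1 ≤ X := (le_max_right _ _).trans ((le_max_left _ _).trans hX)
  have hXz : zz ^ 4 ≤ X := (le_max_right _ _).trans hX
  have hX16 : 16 ≤ X := (le_max_left _ _).trans ((le_max_left _ _).trans hX)
  obtain ⟨hLL1, hLL2, hLL3⟩ := hX1 X hXX1
  obtain ⟨z, hz1, hz2⟩ := Pool.Agent.L0h71.TT.root4 X
  have hzz' : zz ≤ z := by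
    by_contra hcon
    push Not at hcon
    have : (z + 1) ^ 4 ≤ zz ^ 4 := Nat.pow_le_pow_left hcon 4
    omega
  have hz3 : 3 ≤ z := (le_max_left _ _).trans hzz'
  have hMz : M ≤ z := ((le_max_left _ _).trans (le_max_right _ _)).trans hzz'
  have hcz : c ≤ z := ((le_max_right _ _).trans (le_max_right _ _)).trans hzz'
  set L : ℝ := ∑ p ∈ PS z0 z, dn P p with hL
  have hLn : |L - LL X| ≤ c2 := by
    have h1 := hC z hz3
    have h2 := Pool.Agent.L0h71.TT.ll_near hz3 hz1 hz2 le_rfl (Nat.le_self_pow two_ne_zero X)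
    have h3 := abs_add_le (L - LL z) (LL z - LL X)
    have h4 : L - LL z + (LL z - LL X) = L - LL X := by ring
    rw [h4] at h3
    linarith
  have hT := var P (z0 := z0) hlc hc.symm hc1 hcz hz1
  rw [← hL] at hT
  have hXR : (1 : ℝ) ≤ X := by exact_mod_cast (by omega : 1 ≤ X)
  have hX2 : (0 : ℝ) ≤ (X : ℝ) ^ 2 := by positivity
  have hT2 : ∑ t ∈ II X ×ˢ II X, (∑ p ∈ PS z0 z,
      ((if (p : ℤ) ∣ hv P t then (1 : ℝ) else 0) - dn P p)) ^ 2 ≤ 18 * (X : ℝ) ^ 2 * LL X := by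
    refine hT.trans ?_
    have h0 : 0 ≤ L := Finset.sum_nonneg fun p _ => by unfold dn; positivity
    have h1 : L ≤ LL X + c2 := by
      have := (abs_le.1 hLn).2
      linarith
    have h2 : (2 * X + 1 : ℝ) ^ 2 ≤ 9 * (X : ℝ) ^ 2 := by nlinarith
    calc (2 * X + 1 : ℝ) ^ 2 * L + 21 * (X : ℝ) ^ 2 ≤ 9 * (X : ℝ) ^ 2 * L + 21 * (X : ℝ) ^ 2 := by
          gcongr
      _ ≤ 9 * (X : ℝ) ^ 2 * (LL X + c2) + 27 * (X : ℝ) ^ 2 := by
          gcongr
          norm_num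
      _ = 9 * (X : ℝ) ^ 2 * (LL X + (c2 + 3)) := by ring
      _ ≤ 9 * (X : ℝ) ^ 2 * (LL X + LL X) := by gcongr
      _ = _ := by ring
  set B := (Icc (-(X : ℤ)) X ×ˢ Icc (-(X : ℤ)) X).filter (fun t : ℤ × ℤ =>
      Int.gcd t.1 t.2 = 1 ∧ hv P t ≠ 0 ∧ ¬ Typ1 P X t) with hB
  have hLpos : 0 < LL X := by linarith
  have hB2 : ∀ t ∈ B, (LL X) ^ (3 / 2 : ℝ) / 4 ≤ (∑ p ∈ PS z0 z,
      ((if (p : ℤ) ∣ hv P t then (1 : ℝ) else 0) - dn P p)) ^ 2 := by
    intro t ht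
    rw [hB, mem_filter, mem_product, mem_Icc, mem_Icc] at ht
    obtain ⟨⟨⟨ht1, ht2⟩, ht3, ht4⟩, -, hx3, hx4⟩ := ht
    unfold Typ1 at hx4
    push Not at hx4
    set n := (hv P t).natAbs with hn
    have hn0 : n ≠ 0 := Int.natAbs_ne_zero.mpr hx3
    have hnX : n ≤ M * X ^ c := natAbs_hv P (by omega) (by omega)
    have h1 := om_near (z0 := z0) hn0 hnX hz2 (by omega : M ≤ z + 1)
    rw [← hc1'] at h1
    have h2 : ∑ p ∈ PS z0 z, ((if (p : ℤ) ∣ hv P t then (1 : ℝ) else 0) - dn P p) =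
        (((PS z0 z).filter (fun p => p ∣ n)).card : ℝ) - L := by
      rw [Finset.sum_sub_distrib, ← hL, sum_ind]
      congr 2
      congr 1
      ext p
      rw [mem_filter, mem_filter, Int.natCast_dvd]
    rw [h2]
    set w : ℝ := (((PS z0 z).filter (fun p => p ∣ n)).card : ℝ) with hw
    have h3 : (LL X) ^ (3 / 4 : ℝ) / 2 ≤ |w - L| := by
      have h4 : |(n.primeFactors.card : ℝ) - LL X| ≤ |(n.primeFactors.card : ℝ) - w| +
          |w - L| + |L - LL X| := by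
        have h5 := abs_add_three ((n.primeFactors.card : ℝ) - w) (w - L) (L - LL X)
        have h6 : (n.primeFactors.card : ℝ) - w + (w - L) + (L - LL X) =
          (n.primeFactors.card : ℝ) - LL X := by ring
        rw [h6] at h5
        exact h5
      linarith
    have h4 : (LL X) ^ (3 / 2 : ℝ) / 4 = ((LL X) ^ (3 / 4 : ℝ) / 2) ^ 2 := by
      rw [div_pow, ← Real.rpow_natCast, ← Real.rpow_mul hLpos.le]
      norm_num
    rw [h4, ← sq_abs (w - L)]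
    exact pow_le_pow_left₀ (by positivity) h3 2
  have h1 : (B.card : ℝ) * ((LL X) ^ (3 / 2 : ℝ) / 4) ≤ 18 * (X : ℝ) ^ 2 * LL X := by
    calc (B.card : ℝ) * ((LL X) ^ (3 / 2 : ℝ) / 4) = ∑ t ∈ B, (LL X) ^ (3 / 2 : ℝ) / 4 := by
          rw [Finset.sum_const, nsmul_eq_mul]
      _ ≤ ∑ t ∈ B, (∑ p ∈ PS z0 z,
            ((if (p : ℤ) ∣ hv P t then (1 : ℝ) else 0) - dn P p)) ^ 2 :=
          Finset.sum_le_sum hB2
      _ ≤ ∑ t ∈ II X ×ˢ II X, (∑ p ∈ PS z0 z,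
            ((if (p : ℤ) ∣ hv P t then (1 : ℝ) else 0) - dn P p)) ^ 2 :=
          Finset.sum_le_sum_of_subset_of_nonneg (filter_subset _ _) fun _ _ _ => sq_nonneg _
      _ ≤ _ := hT2
  have h2 : (LL X) ^ (3 / 2 : ℝ) = (LL X) ^ (1 / 2 : ℝ) * LL X := by
    rw [← Real.rpow_add_one hLpos.ne']
    norm_num
  have h3 : 0 < (LL X) ^ (1 / 2 : ℝ) := Real.rpow_pos_of_pos hLpos _
  rw [le_div_iff₀ h3]
  rw [h2] at h1
  have h4 : ((B.card : ℝ) * (LL X) ^ (1 / 2 : ℝ)) * LL X ≤ (72 * (X : ℝ) ^ 2) * LL X := by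
    linarith
  exact le_of_mul_le_mul_right h4 hLpos

end Pool.Agent.L0h19.TU
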